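import Mathlib
import Pool.Agent.Q73.RF.D
import Pool.Agent.Q73.NL.TD1
import Pool.Agent.Q73.NL.TD2
import Pool.Agent.Q73.NL.TD3

/-!
# The density at zero of stationary waves in the plane (MP_4fa179_mp)

Every Benjamini-Schramm limit of Laplace eigenfunctions of a compact Riemannian surface, rescaled to
eigenvalue `1`, is the law of a stationary random field on `ℝ²` with smooth samples, `ΔF + F = 0` and
`E F(0)² ≤ 1`. The theorem is the sharp lower bound `p(0) ≥ 2 / (π² E|F|)` for the density at `0` of the law
of `F(0)` for all such fields, with equality for plane waves; for the Gaussian random wave of the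
conjecture `p(0) = 1 / (π E|F|)`.

Proof. Every nonzero smooth solution of `Δf + f = 0` in the plane has nodal length at least `R² - π R` in
each disc of radius `R`: a zero in an open disc of radius `t ≤ π/2` forces two zeros on the circle, so by
Crofton's formula for circles the `t`-neighbourhood of the zero set has area at most `2 t` times the
length, and the test function `sin (min (δ, π/2))`, `δ` the distance to the zero set, gives the bound.
The length of the zero set is at most the lower limit of `(2ε)⁻¹ ∫_{|f| ≤ ε} |∇f|` (there are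
countably many singular zeros). By stationarity and Fatou's lemma `liminf (2ε)⁻¹ E(1_{|F| ≤ ε} |∇F|) ≥ 1/π`. The identity
`E ψ(F)|∇F|² = E Ψ(F) F`, `Ψ' = ψ`, gives `E(1_{|F| ≤ ε} |∇F|²) ≤ ε E|F|`, and Cauchy-Schwarz finishes the
proof. Strong unique continuation in the plane is proved as well.
-/

set_option autoImplicit false
open MeasureTheory Filter Topology
open scoped ContDiff ENNReal

namespace Pool.Agent.Results.MP_4fa179_mp.DensityAtZero

noncomputable section

universe u

/-- the Laplacian `∂_0² + ∂_1²` of the plane -/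
def laplacian (f : EuclideanSpace ℝ (Fin 2) → ℝ) (y : EuclideanSpace ℝ (Fin 2)) : ℝ :=
  ∑ i, fderiv ℝ (fun z => fderiv ℝ f z (EuclideanSpace.single i 1)) y (EuclideanSpace.single i 1)

/-- `F` is a stationary random field on the plane with smooth samples, `ΔF + F = 0` and
`E F(0)² < ∞`. Stationary means: the shifted field has the same law, in the product of copies of `ℝ`
indexed by the points of the plane. -/
structure IsStationaryWave {S : Type*} [MeasurableSpace S] (P : Measure S)
    (F : S → EuclideanSpace ℝ (Fin 2) → ℝ) : Prop where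
  prob : IsProbabilityMeasure P
  measurable : ∀ y, Measurable fun s => F s y
  smooth : ∀ s, ContDiff ℝ ∞ (F s)
  eigen : ∀ s y, laplacian (F s) y + F s y = 0
  stationary : ∀ x : EuclideanSpace ℝ (Fin 2),
    P.map (fun s y => F s (y + x)) = P.map (fun s y => F s y)
  moment : Integrable (fun s => F s 0 ^ 2) P

/-- **The density at zero.** For every stationary wave `F` in the plane
`liminf_{ε → 0+} P(|F(0)| ≤ ε) / (2ε) ≥ 2 / (π² E|F(0)|)`, and there is a stationary wave (the plane wave with
random phase) with `E|F(0)| = 2/π` for which the limit exists and equality holds. -/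
theorem result :
    (∀ (S : Type u) [MeasurableSpace S] (P : Measure S) (F : S → EuclideanSpace ℝ (Fin 2) → ℝ),
      IsStationaryWave P F →
      ENNReal.ofReal (2 / (Real.pi ^ 2 * ∫ s, |F s 0| ∂P)) ≤
        liminf (fun ε : ℝ => P {s | |F s 0| ≤ ε} / ENNReal.ofReal (2 * ε)) (𝓝[>] 0)) ∧
    (∃ (S : Type) (_ : MeasurableSpace S) (P : Measure S)
      (F : S → EuclideanSpace ℝ (Fin 2) → ℝ), IsStationaryWave P F ∧
      ∫ s, |F s 0| ∂P = 2 / Real.pi ∧
      Tendsto (fun ε : ℝ => P {s | |F s 0| ≤ ε} / ENNReal.ofReal (2 * ε)) (𝓝[>] 0)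
        (𝓝 (ENNReal.ofReal (2 / (Real.pi ^ 2 * ∫ s, |F s 0| ∂P))))) := by
  have h3 : Pool.Agent.Q73.NL.D3 := Pool.Agent.Q73.NL.td3 Pool.Agent.Q73.NL.td1 Pool.Agent.Q73.NL.td2
  constructor
  · intro S _ P F hF
    have := hF.prob
    exact Pool.Agent.Q73.RF.dens_fin h3 hF.measurable hF.smooth hF.eigen hF.stationary hF.moment
  · exact ⟨AddCircle (2 * Real.pi), inferInstance, AddCircle.haarAddCircle,
      Pool.Agent.Q73.SM.pwv 1, ⟨inferInstance, Pool.Agent.Q73.SM.pwv_meas 1,
        Pool.Agent.Q73.SM.pwv_sm 1, Pool.Agent.Q73.SM.pwv_eq 1, Pool.Agent.Q73.SM.pwv_st 1,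
        Pool.Agent.Q73.SM.pwv_int 1 2⟩, Pool.Agent.Q73.RF.pw_abs, Pool.Agent.Q73.RF.pw_dens h3⟩

end

end Pool.Agent.Results.MP_4fa179_mp.DensityAtZero
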