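import Mathlib
import Pool.Agent.Q73.SM.Sh

/-!
# Sharp even moments of stationary waves (MP_4fa179_mp)

Every Benjamini-Schramm limit of Laplace eigenfunctions of a compact Riemannian manifold of
dimension `d`, rescaled to eigenvalue `1`, is the law of a stationary random field on `ℝ^d` with
smooth samples, `ΔF + F = 0` and `E F(0)² ≤ 1`. The theorem compares all such fields with the plane
waves `√(2 E F²) cos(⟨θ, y⟩ + phase)` with a uniformly distributed phase: all even moments of the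
wave, and of the wave against its gradient, are extremal for plane waves. For instance
`E |∇F|^(2p) ≤ E F^(2p)` and `E F^(2p) ≥ ((2p-1)!! / p!) (E F²)^p` for all `p`, with equality for
plane waves.

Proof. With `K = F^(2j) |∇F|^(2k)` the identities `E div(F K ∇F) = 0` and
`E div(K (D²F ∇F + F ∇F)) = 0` and the pointwise inequality
`|∇F|² (|D²F|² - F²) + 2k (|D²F ∇F|² + F Q) + (2k+2) F (Q + F |∇F|²) ≥ 0`, `Q = ⟨∇F, D²F ∇F⟩`, give
`(2a+1) E F^(2a) |∇F|^(2b+2) ≤ (2b+1) E F^(2a+2) |∇F|^(2b)` by an induction; the moments of the derivatives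
are finite by the same identities with truncated weights.
-/

set_option autoImplicit false
open MeasureTheory Filter Topology
open scoped ContDiff ENNReal Nat

namespace Pool.Agent.Results.MP_4fa179_mp.EvenMoments

noncomputable section

universe u

/-- the Laplacian `∑ ∂_i²` of `ℝ^d` -/
def laplacian {d : ℕ} (f : EuclideanSpace ℝ (Fin d) → ℝ) (y : EuclideanSpace ℝ (Fin d)) : ℝ :=
  ∑ i, fderiv ℝ (fun z => fderiv ℝ f z (EuclideanSpace.single i 1)) y (EuclideanSpace.single i 1)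

/-- `|∇f|²`, the sum of the squares of the partial derivatives -/
def gradSq {d : ℕ} (f : EuclideanSpace ℝ (Fin d) → ℝ) (y : EuclideanSpace ℝ (Fin d)) : ℝ :=
  ∑ i, fderiv ℝ f y (EuclideanSpace.single i 1) ^ 2

/-- `F` is a stationary random field on `ℝ^d` with smooth samples, `ΔF + F = 0` and `E F(0)² < ∞`.
Stationary means: the shifted field has the same law, in the product of copies of `ℝ` indexed by
the points of `ℝ^d`. -/
structure IsStationaryWave {d : ℕ} {S : Type*} [MeasurableSpace S] (P : Measure S)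
    (F : S → EuclideanSpace ℝ (Fin d) → ℝ) : Prop where
  prob : IsProbabilityMeasure P
  measurable : ∀ y, Measurable fun s => F s y
  smooth : ∀ s, ContDiff ℝ ∞ (F s)
  eigen : ∀ s y, laplacian (F s) y + F s y = 0
  stationary : ∀ x : EuclideanSpace ℝ (Fin d),
    P.map (fun s y => F s (y + x)) = P.map (fun s y => F s y)
  moment : Integrable (fun s => F s 0 ^ 2) P

/-- **Sharp even moments of stationary waves.** (`n‼` is the double factorial, `(-1)‼ = 1`.)
(1) Let `E F(0)^(2p) < ∞`. For `a + b = p` the mixed moment `E F^(2a) |∇F|^(2b)` is finite and at most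
`((2a-1)‼ (2b-1)‼ / (2p-1)‼) E F^(2p)`; `E (F² + |∇F|²)^p ≤ (2^p p! / (2p-1)‼) E F^(2p)`;
`E F^(2p) ≥ ((2p-1)‼ / p!) (E F²)^p`. (2) If `|F(0)| ≤ M` almost surely, then `F² + |∇F|² ≤ M²` almost surely
and `E F² ≤ M² / 2`. (3) The bounds are sharp in every dimension `d ≥ 1`: for the plane wave with random
phase `F² + |∇F|² = 1` and the last inequality of (1) is an equality for all `p`. -/
theorem result :
    (∀ (d : ℕ) (S : Type u) [MeasurableSpace S] (P : Measure S)
      (F : S → EuclideanSpace ℝ (Fin d) → ℝ), IsStationaryWave P F →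
      (∀ p : ℕ, Integrable (fun s => F s 0 ^ (2 * p)) P →
        (∀ a b : ℕ, a + b = p →
          Integrable (fun s => F s 0 ^ (2 * a) * gradSq (F s) 0 ^ b) P ∧
          ((2 * p - 1)‼ : ℕ) * ∫ s, F s 0 ^ (2 * a) * gradSq (F s) 0 ^ b ∂P ≤
            ((2 * a - 1)‼ : ℕ) * ((2 * b - 1)‼ : ℕ) * ∫ s, F s 0 ^ (2 * p) ∂P) ∧
        Integrable (fun s => (F s 0 ^ 2 + gradSq (F s) 0) ^ p) P ∧
        ((2 * p - 1)‼ : ℕ) * ∫ s, (F s 0 ^ 2 + gradSq (F s) 0) ^ p ∂P ≤
          2 ^ p * p.factorial * ∫ s, F s 0 ^ (2 * p) ∂P ∧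
        ((2 * p - 1)‼ : ℕ) * (∫ s, F s 0 ^ 2 ∂P) ^ p ≤
          p.factorial * ∫ s, F s 0 ^ (2 * p) ∂P) ∧
      (∀ M : ℝ, (∀ᵐ s ∂P, |F s 0| ≤ M) →
        (∀ᵐ s ∂P, F s 0 ^ 2 + gradSq (F s) 0 ≤ M ^ 2) ∧ 2 * ∫ s, F s 0 ^ 2 ∂P ≤ M ^ 2)) ∧
    (∀ d : ℕ, 1 ≤ d → ∃ (S : Type) (_ : MeasurableSpace S) (P : Measure S)
      (F : S → EuclideanSpace ℝ (Fin d) → ℝ), IsStationaryWave P F ∧
      (∀ s y, F s y ^ 2 + gradSq (F s) y = 1) ∧
      ∀ p : ℕ, Integrable (fun s => F s 0 ^ (2 * p)) P ∧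
        ((2 * p - 1)‼ : ℕ) * (∫ s, F s 0 ^ 2 ∂P) ^ p =
          p.factorial * ∫ s, F s 0 ^ (2 * p) ∂P) := by
  constructor
  · intro d S _ P F hF
    have := hF.prob
    exact Pool.Agent.Q73.SM.fin hF.measurable hF.smooth hF.eigen hF.stationary hF.moment
  · intro d hd
    obtain ⟨e, rfl⟩ : ∃ e, d = e + 1 := ⟨d - 1, by omega⟩
    refine ⟨AddCircle (2 * Real.pi), inferInstance, AddCircle.haarAddCircle,
      Pool.Agent.Q73.SM.pwv e, ⟨inferInstance, Pool.Agent.Q73.SM.pwv_meas e,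
        Pool.Agent.Q73.SM.pwv_sm e, Pool.Agent.Q73.SM.pwv_eq e, Pool.Agent.Q73.SM.pwv_st e,
        Pool.Agent.Q73.SM.pwv_int e 2⟩, ?_, ?_⟩
    · intro s y
      obtain ⟨x, rfl⟩ := QuotientAddGroup.mk_surjective s
      have h : gradSq (Pool.Agent.Q73.SM.pwv e (x : AddCircle (2 * Real.pi))) y =
          Real.cos (x + y 0) ^ 2 := by
        have h1 : ∀ i : Fin (e + 1), fderiv ℝ (Pool.Agent.Q73.SM.pwv e
            (x : AddCircle (2 * Real.pi))) y (EuclideanSpace.single i 1) =
            if i = 0 then Real.cos (x + y 0) else 0 := fun i => Pool.Agent.Q73.SM.pwv_D e x i y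
        unfold gradSq
        simp only [h1]
        rw [Finset.sum_eq_single (0 : Fin (e + 1))]
        · simp
        · intro b _ hb; simp [hb]
        · simp
      have h2 := Pool.Agent.Q73.SM.pwv_coe e x y
      have h3 : gradSq (Pool.Agent.Q73.SM.pwv e ((QuotientAddGroup.mk x :
          AddCircle (2 * Real.pi)))) y = Real.cos (x + y 0) ^ 2 := h
      have h4 : Pool.Agent.Q73.SM.pwv e ((QuotientAddGroup.mk x :
          AddCircle (2 * Real.pi))) y = Real.sin (x + y 0) := h2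
      rw [h3, h4]
      exact Real.sin_sq_add_cos_sq _
    · intro p
      refine ⟨Pool.Agent.Q73.SM.pwv_int e (2 * p), ?_⟩
      have h1 := Pool.Agent.Q73.SM.pwv_mom e 1
      have h2 := Pool.Agent.Q73.SM.pwv_mom e p
      have h3 := Pool.Agent.Q73.SM.al_eq p
      simp only [mul_one] at h1
      rw [h1, h2, ← h3]
      have f0 : (p.factorial : ℝ) ≠ 0 := by positivity
      simp only [Pool.Agent.Q73.SM.al, Nat.factorial_one]
      field_simp
      simp

end

end Pool.Agent.Results.MP_4fa179_mp.EvenMoments
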