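import Mathlib
import Pool.Agent.Q218.UB.I
import Pool.Agent.Q218.UB.K

/-!
# Level crossings and nodal length of stationary waves: upper bounds (MP_4fa179_mp)

Every Benjamini-Schramm limit of Laplace eigenfunctions of a compact Riemannian manifold of
dimension `d`, rescaled to eigenvalue `1`, is the law of a stationary random field `F` on `ℝ^d` with
smooth samples, `ΔF + F = 0` and `E F(0)² ≤ 1`. The theorem gives upper bounds for the level sets of
all such fields, with no assumption of a Gaussian law, ergodicity or isotropy: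
`E(|∂_v F(0)|; F(0) ∈ A) ≤ |A| / π` for every unit vector `v` and every Borel set `A`, with equality for plane
waves (`A ⊆ [-1, 1]`); along every line each level is crossed in the mean at most `length / π` times; in the
plane `E(|∇F(0)|; F(0) ∈ A) ≤ |A| / 2` and the mean length of the zero set in an open set `W` is at most
`|W| / 2` (the random wave of the conjecture has `|W| / (2 √2)`).

Proof. Let `h_n = ∂_v^n F`; then `E h_n² ≤ E F²`. The Taylor sums `p_N(y) = ∑_{n ≤ N} (i y)^n / n! h_n` continue `F`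
to the complex direction `x + i y`, and `E |p_N(y)|² ≤ e^{2|y|} E F²`. For a real `a` and `δ > 0` put
`φ(y) = E (1/2) log (|p_N(y) - a|² + δ²)`. By stationarity `E ∂_x² (1/2) log (…) = 0`, so `φ''(y)` is up to a
small error the mean of `2 δ² |∂_x p_N|² / (|p_N - a|² + δ²)²`; on the other hand `φ(H) - φ(0) ≤ H + C` by the
concavity of the logarithm. Hence `E ∫_0^H (1 - y / H) 2 δ² |∂_x p_N|² / (|p_N - a|² + δ²)² dy ≤ 1 + (C / H) + small`.
Integration over `a` in an interval and the limit `δ → 0` (only `y ≤ √δ` matters, where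
`p_N = F + i y ∂_v F + O(y²)`) give `π E(|∂_v F|; F ∈ A) ≤ |A|`. No complex analysis and no spectral theory are
used.
-/

set_option autoImplicit false
open MeasureTheory Filter Topology
open scoped ContDiff ENNReal

namespace Pool.Agent.Results.MP_4fa179_mp.LevelCrossings

noncomputable section

universe u

/-- the Laplacian `∑ ∂_i²` of `ℝ^d` -/
def laplacian {d : ℕ} (f : EuclideanSpace ℝ (Fin d) → ℝ) (y : EuclideanSpace ℝ (Fin d)) : ℝ :=
  ∑ i, fderiv ℝ (fun z => fderiv ℝ f z (EuclideanSpace.single i 1)) y (EuclideanSpace.single i 1)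

/-- `|∇f|` -/
def gradNorm {d : ℕ} (f : EuclideanSpace ℝ (Fin d) → ℝ) (y : EuclideanSpace ℝ (Fin d)) : ℝ :=
  √(∑ i, fderiv ℝ f y (EuclideanSpace.single i 1) ^ 2)

/-- `F` is a stationary random field on `ℝ^d` with smooth samples, `ΔF + F = 0` and `E F(0)² < ∞`.
Stationary means: the shifted field has the same law, in the product of copies of `ℝ` indexed by
the points of `ℝ^d`. -/
structure IsStationaryWave {d : ℕ} {S : Type*} [MeasurableSpace S] (P : Measure S)
    (F : S → EuclideanSpace ℝ (Fin d) → ℝ) : Prop where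
  prob : IsProbabilityMeasure P
  measurable : ∀ y, Measurable fun s => F s y
  smooth : ∀ s, ContDiff ℝ ∞ (F s)
  eigen : ∀ s y, laplacian (F s) y + F s y = 0
  stationary : ∀ x : EuclideanSpace ℝ (Fin d),
    P.map (fun s y => F s (y + x)) = P.map (fun s y => F s y)
  moment : Integrable (fun s => F s 0 ^ 2) P

/-- `f - a` changes its sign at least `k` times on `[0, ℓ]`: there are points
`0 ≤ t_0 < t_1 < … < t_k ≤ ℓ` such that `f - a` has opposite signs at `t_i` and `t_(i+1)` -/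
def Crosses (f : ℝ → ℝ) (a ℓ : ℝ) (k : ℕ) : Prop :=
  ∃ t : ℕ → ℝ, (∀ i < k, t i < t (i + 1)) ∧ 0 ≤ t 0 ∧ t k ≤ ℓ ∧
    ∀ i < k, (f (t i) - a) * (f (t (i + 1)) - a) < 0

/-- **Level crossings and nodal length of stationary waves.** (1) Any dimension `d`, unit vector `v`:
`E(|∂_v F(0)|; F(0) ∈ A) ≤ |A| / π` for every Borel set `A`, and for every level `a` the expected number of sign changes
of `t ↦ F(t v) - a` on `[0, ℓ]` is at most `ℓ / π` (the number of sign changes has a measurable bound `N` with `E N ≤ ℓ / π`). (2) In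
the plane `E(|∇F(0)|; F(0) ∈ A) ≤ |A| / 2` for every Borel set `A`, and for every open set `W` the length of the zero set in `W` of the nonzero
samples has a measurable bound `L` with `E L ≤ |W| / 2`. (3) The first bound in (1) is sharp in every dimension `d ≥ 1`: there are a
stationary wave (the plane wave with random phase) and a unit vector `v` with equality for all Borel
sets `A ⊆ [-1, 1]`. -/
theorem result :
    (∀ (d : ℕ) (S : Type u) [MeasurableSpace S] (P : Measure S)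
      (F : S → EuclideanSpace ℝ (Fin d) → ℝ), IsStationaryWave P F →
      ∀ v : EuclideanSpace ℝ (Fin d), ‖v‖ = 1 →
      (∀ A : Set ℝ, MeasurableSet A →
        ∫⁻ s in {s | F s 0 ∈ A}, ENNReal.ofReal |fderiv ℝ (F s) 0 v| ∂P ≤
          volume A / ENNReal.ofReal Real.pi) ∧
      (∀ a ℓ : ℝ, 0 ≤ ℓ → ∃ N : S → ℝ≥0∞, Measurable N ∧
        (∀ s k, Crosses (fun t => F s (t • v)) a ℓ k → (k : ℝ≥0∞) ≤ N s) ∧
        ∫⁻ s, N s ∂P ≤ ENNReal.ofReal (ℓ / Real.pi))) ∧
    (∀ (S : Type u) [MeasurableSpace S] (P : Measure S) (F : S → EuclideanSpace ℝ (Fin 2) → ℝ),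
      IsStationaryWave P F →
      (∀ A : Set ℝ, MeasurableSet A →
        ∫⁻ s in {s | F s 0 ∈ A}, ENNReal.ofReal (gradNorm (F s) 0) ∂P ≤ volume A / 2) ∧
      (∀ W : Set (EuclideanSpace ℝ (Fin 2)), IsOpen W → ∃ L : S → ℝ≥0∞, Measurable L ∧
        (∀ s, (∃ y, F s y ≠ 0) →
          (μH[1] : Measure (EuclideanSpace ℝ (Fin 2))) {y | y ∈ W ∧ F s y = 0} ≤ L s) ∧
        ∫⁻ s, L s ∂P ≤ volume W / 2)) ∧
    (∀ d : ℕ, 1 ≤ d → ∃ (S : Type) (_ : MeasurableSpace S) (P : Measure S)
      (F : S → EuclideanSpace ℝ (Fin d) → ℝ) (v : EuclideanSpace ℝ (Fin d)),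
      IsStationaryWave P F ∧ ‖v‖ = 1 ∧ ∀ A : Set ℝ, MeasurableSet A → A ⊆ Set.Icc (-1) 1 →
        ∫⁻ s in {s | F s 0 ∈ A}, ENNReal.ofReal |fderiv ℝ (F s) 0 v| ∂P =
          volume A / ENNReal.ofReal Real.pi) := by
  have dirb : ∀ {d : ℕ} {S : Type u} [MeasurableSpace S] {P : Measure S}
      {F : S → EuclideanSpace ℝ (Fin d) → ℝ}, IsStationaryWave P F →
      ∀ v : EuclideanSpace ℝ (Fin d), ‖v‖ ≤ 1 → ∀ A : Set ℝ, MeasurableSet A →
        ∫⁻ s in {s | F s 0 ∈ A}, ENNReal.ofReal |fderiv ℝ (F s) 0 v| ∂P ≤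
          volume A / ENNReal.ofReal Real.pi := by
    intro d S _ P F hF v hv A hA
    have := hF.prob
    obtain ⟨Φ, v1, mΦ, hQ, hτ, W⟩ :=
      Pool.Agent.Q73.SM.canon hF.measurable hF.smooth hF.eigen hF.stationary hF.moment
    have h1 := Pool.Agent.Q218.UB.dir_bound hτ W hv hA
    have mA : MeasurableSet {f : Pool.Agent.Q73.SM.Sp d | f.1 0 ∈ A} := W.m0 hA
    have mD := (((Pool.Agent.Q218.UB.sf_dv W.sf v).meas 0).abs).ennreal_ofReal
    rw [setLIntegral_map mA mD mΦ] at h1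
    have e1 : Φ ⁻¹' {f : Pool.Agent.Q73.SM.Sp d | f.1 0 ∈ A} = {s | F s 0 ∈ A} := by
      ext s
      simp only [Set.mem_preimage, Set.mem_ofPred_eq, v1]
    rw [e1] at h1
    refine le_trans (le_of_eq (lintegral_congr fun s => ?_)) h1
    rw [v1]; rfl
  refine ⟨fun d S _ P F hF v hv => ⟨dirb hF v hv.le, fun a ℓ hℓ => ?_⟩,
    fun S _ P F hF => ⟨fun A hA => ?_, fun W hW => ?_⟩, fun d hd => ?_⟩
  · have := hF.prob
    obtain ⟨Φ, v1, mΦ, hQ, hτ, Wv⟩ :=
      Pool.Agent.Q73.SM.canon hF.measurable hF.smooth hF.eigen hF.stationary hF.moment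
    obtain ⟨L, mL, hL, iL⟩ := Pool.Agent.Q218.UB.crossings hτ Wv hv.le a hℓ
    refine ⟨fun s => L (Φ s), mL.comp mΦ, fun s k hk => hL (Φ s) k ?_, ?_⟩
    · rw [v1]; exact hk
    · rw [lintegral_map mL mΦ] at iL
      exact iL
  · have := hF.prob
    obtain ⟨Φ, v1, mΦ, hQ, hτ, Wv⟩ :=
      Pool.Agent.Q73.SM.canon hF.measurable hF.smooth hF.eigen hF.stationary hF.moment
    have h1 := Pool.Agent.Q218.UB.grad_bound hτ Wv hA
    have mA : MeasurableSet {f : Pool.Agent.Q73.SM.Sp 2 | f.1 0 ∈ A} := Wv.m0 hA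
    have mD := (((Pool.Agent.Q73.SM.g2_sf Wv.sf).meas 0).sqrt).ennreal_ofReal
    rw [setLIntegral_map mA mD mΦ] at h1
    have e1 : Φ ⁻¹' {f : Pool.Agent.Q73.SM.Sp 2 | f.1 0 ∈ A} = {s | F s 0 ∈ A} := by
      ext s
      simp only [Set.mem_preimage, Set.mem_ofPred_eq, v1]
    rw [e1] at h1
    refine le_trans (le_of_eq (lintegral_congr fun s => ?_)) h1
    rw [v1]; rfl
  · have := hF.prob
    obtain ⟨Φ, v1, mΦ, hQ, hτ, Wv⟩ :=
      Pool.Agent.Q73.SM.canon hF.measurable hF.smooth hF.eigen hF.stationary hF.moment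
    obtain ⟨L, mL, hL, iL⟩ := Pool.Agent.Q218.UB.nodal hτ Wv hW
    refine ⟨fun s => L (Φ s), mL.comp mΦ, fun s hs => ?_, ?_⟩
    · have := hL (Φ s) (by rw [v1]; exact hs)
      rw [v1] at this
      exact this
    · rw [lintegral_map mL mΦ] at iL
      exact iL
  · obtain ⟨e, rfl⟩ : ∃ e, d = e + 1 := ⟨d - 1, by omega⟩
    have hW : IsStationaryWave (AddCircle.haarAddCircle (T := 2 * Real.pi))
        (Pool.Agent.Q73.SM.pwv e) :=
      ⟨inferInstance, Pool.Agent.Q73.SM.pwv_meas e, Pool.Agent.Q73.SM.pwv_sm e,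
        Pool.Agent.Q73.SM.pwv_eq e, Pool.Agent.Q73.SM.pwv_st e, Pool.Agent.Q73.SM.pwv_int e 2⟩
    refine ⟨AddCircle (2 * Real.pi), inferInstance, AddCircle.haarAddCircle,
      Pool.Agent.Q73.SM.pwv e, EuclideanSpace.single 0 1, hW, by simp, fun A hA h1 => ?_⟩
    refine Pool.Agent.Q218.UB.pw_sharp e hA h1 fun B hB => ?_
    obtain ⟨Φ, v1, mΦ, hQ, hτ, W⟩ :=
      Pool.Agent.Q73.SM.canon hW.measurable hW.smooth hW.eigen hW.stationary hW.moment
    have h1 := Pool.Agent.Q218.UB.dir_bound hτ W (v := EuclideanSpace.single 0 1) (by simp) hB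
    have mA : MeasurableSet {f : Pool.Agent.Q73.SM.Sp (e + 1) | f.1 0 ∈ B} := W.m0 hB
    have mD := (((Pool.Agent.Q218.UB.sf_dv W.sf (EuclideanSpace.single 0 1)).meas 0).abs).ennreal_ofReal
    rw [setLIntegral_map mA mD mΦ] at h1
    have e1 : Φ ⁻¹' {f : Pool.Agent.Q73.SM.Sp (e + 1) | f.1 0 ∈ B} =
        {s | Pool.Agent.Q73.SM.pwv e s 0 ∈ B} := by
      ext s
      simp only [Set.mem_preimage, Set.mem_ofPred_eq, v1]
    rw [e1] at h1
    refine le_trans (le_of_eq (lintegral_congr fun s => ?_)) h1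
    rw [v1]; rfl

end

end Pool.Agent.Results.MP_4fa179_mp.LevelCrossings
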