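import Mathlib
import Pool.Agent.Q73.PW.AllSt
import Pool.Agent.Q73.PW.R1
import Pool.Agent.Q73.PW.St5

/-!
# Plane waves are extremal among all stationary waves (MP_4fa179_mp)

Every Benjamini-Schramm limit of Laplace eigenfunctions of a compact Riemannian manifold of
dimension `d`, rescaled to eigenvalue `1`, is the law of a stationary random field on `ℝ^d` with
smooth samples, `ΔF + F = 0` and `E F(0)² ≤ 1`. The theorem compares the one-point law of every such
field with the plane wave `√(2 E F²) cos(⟨θ, y⟩ + phase)` with a uniformly distributed phase: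
`E Φ(F) ≥ E Φ(plane wave)` for all even `Φ` with `Φ'' ` nondecreasing on `(0, ∞)`, in the plane for all even
`Φ` such that `Φ'(x)/x` and `(x Φ'(x))'/x` are nondecreasing. In particular the `L^q` norms, `q > 2`, of
`F` are at least, the `L^q` norms, `1 ≤ q < 2` (in the plane `0 < q < 2`), at most those of the plane wave with
the same variance; `E|F| ≤ (2√2/π) √(E F²)`. Equality for one `q` holds only for plane waves. In the plane
the density of the value `0` is at least that of the plane wave.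

Proof. Let `P = F² + |∇F|²`, `A (r, θ) = ∫_0^θ (Φ (r cos t) - mean) dt`, `B = (1/2) ∫_0^θ (y ∂_y - 1) A` in polar
coordinates `x = r cos θ`, `y = r sin θ`. With `x = F`, `y = |∇F|` the divergence of
`(A/y) ∇F + (B/y²) ∇P` is at least `mean - Φ (F) + (2 y⁴)⁻¹ ((y ∂_y - 1) B) |∇P|²`; in the plane it is equal to
`mean - Φ (F) + (2 y³)⁻¹ (∂_y B) |∇P|²`. The signs of `(y ∂_y - 1) B` and `∂_y B` follow from one-dimensional
inequalities, and the mean of a divergence is zero by stationarity. In the case of equality `P` is constant,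
and solutions with constant `P` are plane waves.
-/

set_option autoImplicit false
open MeasureTheory Filter Topology
open scoped ContDiff ENNReal

namespace Pool.Agent.Results.MP_4fa179_mp.PlaneWavesExtremal

noncomputable section

universe u

/-- the Laplacian `∑ ∂_i²` of `ℝ^d` -/
def laplacian {d : ℕ} (f : EuclideanSpace ℝ (Fin d) → ℝ) (y : EuclideanSpace ℝ (Fin d)) : ℝ :=
  ∑ i, fderiv ℝ (fun z => fderiv ℝ f z (EuclideanSpace.single i 1)) y (EuclideanSpace.single i 1)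

/-- `f² + |∇f|²` -/
def energy {d : ℕ} (f : EuclideanSpace ℝ (Fin d) → ℝ) (y : EuclideanSpace ℝ (Fin d)) : ℝ :=
  f y ^ 2 + ∑ i, fderiv ℝ f y (EuclideanSpace.single i 1) ^ 2

/-- `F` is a stationary random field on `ℝ^d` with smooth samples, `ΔF + F = 0` and `E F(0)² < ∞`.
Stationary means: the shifted field has the same law, in the product of copies of `ℝ` indexed by
the points of `ℝ^d`. -/
structure IsStationaryWave {d : ℕ} {S : Type*} [MeasurableSpace S] (P : Measure S)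
    (F : S → EuclideanSpace ℝ (Fin d) → ℝ) : Prop where
  prob : IsProbabilityMeasure P
  measurable : ∀ y, Measurable fun s => F s y
  smooth : ∀ s, ContDiff ℝ ∞ (F s)
  eigen : ∀ s y, laplacian (F s) y + F s y = 0
  stationary : ∀ x : EuclideanSpace ℝ (Fin d),
    P.map (fun s y => F s (y + x)) = P.map (fun s y => F s y)
  moment : Integrable (fun s => F s 0 ^ 2) P

/-- the mean of `Φ (r cos t)` over a period (for even `Φ`): the expectation of `Φ` at the value of a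
plane wave of amplitude `r` with random phase -/
def waveMean (Φ : ℝ → ℝ) (r : ℝ) : ℝ := (∫ t in (0 : ℝ)..Real.pi, Φ (r * Real.cos t)) / Real.pi

/-- `κ_q`, the mean of `|cos t|^q` -/
def kappa (q : ℝ) : ℝ := waveMean (fun x => |x| ^ q) 1

/-- `Φ` is smooth and even and `Φ''` is bounded -/
structure Admissible (Φ : ℝ → ℝ) : Prop where
  smooth : ContDiff ℝ ∞ Φ
  even : ∀ x, Φ (-x) = Φ x
  bounded : ∃ L : ℝ, ∀ x, |deriv (deriv Φ) x| ≤ L

/-- a function is nondecreasing on `(0, ∞)` -/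
def Increasing (g : ℝ → ℝ) : Prop := ∀ x y : ℝ, 0 < x → x ≤ y → g x ≤ g y

/-- the comparison with plane waves: `E Φ(F) ≥ E m(√(F² + |∇F|²)) ≥ m(√(2 E F²))`, `m` the mean of `Φ` at a
plane wave as a function of its amplitude -/
def Comparison {d : ℕ} {S : Type*} [MeasurableSpace S] (P : Measure S)
    (F : S → EuclideanSpace ℝ (Fin d) → ℝ) (Φ : ℝ → ℝ) : Prop :=
  Integrable (fun s => Φ (F s 0)) P ∧ Integrable (fun s => waveMean Φ √(energy (F s) 0)) P ∧
    waveMean Φ √(2 * ∫ s, F s 0 ^ 2 ∂P) ≤ ∫ s, waveMean Φ √(energy (F s) 0) ∂P ∧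
    ∫ s, waveMean Φ √(energy (F s) 0) ∂P ≤ ∫ s, Φ (F s 0) ∂P

/-- the comparison of the `q`-th absolute moments, `q < 2` -/
def LowMoment {d : ℕ} {S : Type*} [MeasurableSpace S] (P : Measure S)
    (F : S → EuclideanSpace ℝ (Fin d) → ℝ) (q : ℝ) : Prop :=
  Integrable (fun s => |F s 0| ^ q) P ∧ Integrable (fun s => energy (F s) 0 ^ (q / 2)) P ∧
    ∫ s, |F s 0| ^ q ∂P ≤ kappa q * ∫ s, energy (F s) 0 ^ (q / 2) ∂P ∧
    ∫ s, energy (F s) 0 ^ (q / 2) ∂P ≤ (2 * ∫ s, F s 0 ^ 2 ∂P) ^ (q / 2)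

/-- the comparison of the `q`-th absolute moments, `q > 2` (possibly infinite) -/
def HighMoment {d : ℕ} {S : Type*} [MeasurableSpace S] (P : Measure S)
    (F : S → EuclideanSpace ℝ (Fin d) → ℝ) (q : ℝ) : Prop :=
  ENNReal.ofReal (kappa q * (2 * ∫ s, F s 0 ^ 2 ∂P) ^ (q / 2)) ≤
      ENNReal.ofReal (kappa q) * ∫⁻ s, ENNReal.ofReal (energy (F s) 0 ^ (q / 2)) ∂P ∧
    ENNReal.ofReal (kappa q) * ∫⁻ s, ENNReal.ofReal (energy (F s) 0 ^ (q / 2)) ∂P ≤
      ∫⁻ s, ENNReal.ofReal (|F s 0| ^ q) ∂P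

/-- almost all samples of `F` are plane waves `y ↦ √(2 E F²) cos(⟨θ, y⟩ + φ)` with `|θ| = 1` -/
def IsPlaneWave {d : ℕ} {S : Type*} [MeasurableSpace S] (P : Measure S)
    (F : S → EuclideanSpace ℝ (Fin d) → ℝ) : Prop :=
  ∀ᵐ s ∂P, ∃ (θ : EuclideanSpace ℝ (Fin d)) (φ : ℝ), ‖θ‖ = 1 ∧
    ∀ y, F s y = √(2 * ∫ s, F s 0 ^ 2 ∂P) * Real.cos (inner ℝ θ y + φ)

/-- `E |F|^q` has the value of the plane wave with the same variance only if `F` is a plane wave -/
def Rigid {d : ℕ} {S : Type*} [MeasurableSpace S] (P : Measure S)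
    (F : S → EuclideanSpace ℝ (Fin d) → ℝ) (q : ℝ) : Prop :=
  0 < ∫ s, F s 0 ^ 2 ∂P → ∫⁻ s, ENNReal.ofReal (|F s 0| ^ q) ∂P =
    ENNReal.ofReal (kappa q * (2 * ∫ s, F s 0 ^ 2 ∂P) ^ (q / 2)) → IsPlaneWave P F

/-- **Plane waves are extremal.** (1) Any dimension: for a stationary wave `F` the comparison holds for
all admissible `Φ` with `Φ''` nondecreasing on `(0, ∞)`; the low moments of order `1 ≤ q < 2`, the high
moments of order `q > 2` compare with those of the plane wave, with equality only for plane waves. (2) In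
the plane the comparison holds if `Φ'(x)/x` and `(x Φ'(x))'/x` are nondecreasing on `(0, ∞)`, the low
moments are those of order `0 < q < 2`, and `liminf P(|F(0)| ≤ ε)/(2ε) ≥ 1/(π √(2 E F²))`. (3) In every dimension `d ≥ 1` there is a stationary wave
(the plane wave with random phase) with `E F² = 1/2` for which `E Φ(F) = m(1)` for every continuous even `Φ`;
so all the bounds for `E Φ(F)` and `E |F|^q` are sharp. (4) `κ_1 = 2/π` and `κ_2 = 1/2`. -/
theorem result :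
    (∀ (d : ℕ) (S : Type u) [MeasurableSpace S] (P : Measure S)
      (F : S → EuclideanSpace ℝ (Fin d) → ℝ), IsStationaryWave P F →
      (∀ Φ : ℝ → ℝ, Admissible Φ → Increasing (deriv (deriv Φ)) → Comparison P F Φ) ∧
      (∀ q : ℝ, 1 ≤ q → q < 2 → LowMoment P F q ∧ Rigid P F q) ∧
      (∀ q : ℝ, 2 < q → HighMoment P F q ∧ Rigid P F q)) ∧
    (∀ (S : Type u) [MeasurableSpace S] (P : Measure S) (F : S → EuclideanSpace ℝ (Fin 2) → ℝ),
      IsStationaryWave P F →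
      (∀ Φ : ℝ → ℝ, Admissible Φ → Increasing (fun x => deriv Φ x / x) →
        Increasing (fun x => deriv (fun t => t * deriv Φ t) x / x) → Comparison P F Φ) ∧
      (∀ q : ℝ, 0 < q → q < 2 → LowMoment P F q ∧ Rigid P F q) ∧
      ENNReal.ofReal (1 / (Real.pi * √(2 * ∫ s, F s 0 ^ 2 ∂P))) ≤
        liminf (fun ε : ℝ => P {s | |F s 0| ≤ ε} / ENNReal.ofReal (2 * ε)) (𝓝[>] 0)) ∧
    (∀ d : ℕ, 1 ≤ d → ∃ (S : Type) (_ : MeasurableSpace S) (P : Measure S)
      (F : S → EuclideanSpace ℝ (Fin d) → ℝ), IsStationaryWave P F ∧ ∫ s, F s 0 ^ 2 ∂P = 1 / 2 ∧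
      ∀ Φ : ℝ → ℝ, Continuous Φ → (∀ x, Φ (-x) = Φ x) →
        ∫ s, Φ (F s 0) ∂P = waveMean Φ √(2 * ∫ s, F s 0 ^ 2 ∂P)) ∧
    kappa 1 = 2 / Real.pi ∧ kappa 2 = 1 / 2 := by
  obtain ⟨j5, j3, a1, a2, p1, p2⟩ := Pool.Agent.Q73.PW.allSt
  have sw : ∀ {d : ℕ} {S : Type u} [MeasurableSpace S] {P : Measure S}
      {F : S → EuclideanSpace ℝ (Fin d) → ℝ}, IsStationaryWave P F → Pool.Agent.Q73.PW.St.SW P F :=
    fun h => ⟨h.prob, h.measurable, h.smooth, h.eigen, h.stationary, h.moment⟩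
  have rlow : ∀ {d : ℕ} {S : Type u} [MeasurableSpace S] {P : Measure S}
      {F : S → EuclideanSpace ℝ (Fin d) → ℝ}, Pool.Agent.Q73.PW.St.SW P F → ∀ {q : ℝ}, 0 < q → q < 2 →
      LowMoment P F q → Rigid P F q := by
    intro d S _ P F W q q0 q2 hL v0 he
    refine Pool.Agent.Q73.PW.St.rig_low Pool.Agent.Q73.PW.r1 a1 W v0 q0 q2 hL ?_
    rw [← ofReal_integral_eq_lintegral_ofReal hL.1 (ae_of_all _ fun s => by positivity)] at he
    exact ((ENNReal.ofReal_le_ofReal_iff (integral_nonneg fun s => by positivity)).1 he.ge)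
  have rhigh : ∀ {d : ℕ} {S : Type u} [MeasurableSpace S] {P : Measure S}
      {F : S → EuclideanSpace ℝ (Fin d) → ℝ}, Pool.Agent.Q73.PW.St.SW P F → ∀ {q : ℝ}, 2 < q →
      HighMoment P F q → Rigid P F q := by
    intro d S _ P F W q hq hH v0 he
    exact Pool.Agent.Q73.PW.St.rig_high Pool.Agent.Q73.PW.r1 a1 W v0 hq hH.2 he.le
  refine ⟨fun d S _ P F hF => ?_, fun S _ P F hF => ?_, fun d hd => ?_, a1.2.2.2.1, a1.2.2.2.2.1⟩
  · have W := sw hF
    refine ⟨fun Φ hΦ h2 => ?_, fun q q1 q2 => ?_, fun q hq => ?_⟩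
    · obtain ⟨L, hL⟩ := hΦ.bounded
      exact Pool.Agent.Q73.PW.St.gen j5 j3 a2 W (L := L) ⟨hΦ.smooth, hΦ.even, hL⟩ h2
    · have hL : LowMoment P F q := by
        refine Pool.Agent.Q73.PW.St.pow_low a1 W (by linarith) q2 fun δ hδ => ?_
        obtain ⟨⟨L, hL⟩, -, -, m2⟩ := p1 q δ (by linarith) q2 hδ
        exact Pool.Agent.Q73.PW.St.gen j5 j3 a2 W hL (m2 q1)
      exact ⟨hL, rlow W (by linarith) q2 hL⟩
    · have hH : HighMoment P F q := Pool.Agent.Q73.PW.St.pow_high a1 p2 W hq fun Φ L hL m2 =>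
        Pool.Agent.Q73.PW.St.gen j5 j3 a2 W hL m2
      exact ⟨hH, rhigh W hq hH⟩
  · have W := sw hF
    have low : ∀ q : ℝ, 0 < q → q < 2 → ∀ δ : ℝ, 0 < δ →
        Pool.Agent.Q73.PW.St.Concl P F (fun x => -(x ^ 2 + δ) ^ (q / 2)) := by
      intro q q0 q2 δ hδ
      obtain ⟨⟨L, hL⟩, m0, m1, -⟩ := p1 q δ q0 q2 hδ
      exact Pool.Agent.Q73.PW.St.gen2 j5 a2 W hL m0 m1
    refine ⟨fun Φ hΦ h0 h1 => ?_, fun q q0 q2 => ?_, ?_⟩
    · obtain ⟨L, hL⟩ := hΦ.bounded
      exact Pool.Agent.Q73.PW.St.gen2 j5 a2 W (L := L) ⟨hΦ.smooth, hΦ.even, hL⟩ h0 h1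
    · have hL : LowMoment P F q := Pool.Agent.Q73.PW.St.pow_low a1 W q0 q2 (low q q0 q2)
      exact ⟨hL, rlow W q0 q2 hL⟩
    · refine Pool.Agent.Q73.PW.St.dens a1 W (low 1 one_pos (by norm_num)) ?_
      exact DensityAtZero.result.1 S P F ⟨hF.prob, hF.measurable, hF.smooth, hF.eigen,
        hF.stationary, hF.moment⟩
  · obtain ⟨e, rfl⟩ : ∃ e, d = e + 1 := ⟨d - 1, by omega⟩
    have m2 : ∫ s, Pool.Agent.Q73.SM.pwv e s 0 ^ 2 ∂(AddCircle.haarAddCircle (T := 2 * Real.pi)) =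
        1 / 2 := by
      have := Pool.Agent.Q73.SM.pwv_mom e 1
      simp only [mul_one] at this
      rw [this]
      simp [Pool.Agent.Q73.SM.al]
    refine ⟨AddCircle (2 * Real.pi), inferInstance, AddCircle.haarAddCircle,
      Pool.Agent.Q73.SM.pwv e, ⟨inferInstance, Pool.Agent.Q73.SM.pwv_meas e,
        Pool.Agent.Q73.SM.pwv_sm e, Pool.Agent.Q73.SM.pwv_eq e, Pool.Agent.Q73.SM.pwv_st e,
        Pool.Agent.Q73.SM.pwv_int e 2⟩, m2, fun Φ hΦ ev => ?_⟩
    rw [m2, Pool.Agent.Q73.PW.St.pw_mean e hΦ ev]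
    norm_num
    rfl

end

end Pool.Agent.Results.MP_4fa179_mp.PlaneWavesExtremal
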